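import Pool.Agent.H98.CP.St
import Pool.Agent.H67.CM.Kraft

set_option autoImplicit false

/-! The final count: `StFinal` from the compression theorem and the statements on the columns. -/

namespace Pool.Agent.H69.CP

open Finset ComplexConjugate H95.CP H67.CM H98.CP

/-! ### auxiliary facts -/

/-- pull back of a code -/
lemma kraft_comp {G X Y : Type*} {S : Set G} {f : G → X} {c : G → ℝ} (φ : Y → G) (T : Set Y)
    (hφ : ∀ y ∈ T, φ y ∈ S) (h : Kraft S f c) :
    Kraft T (fun y => f (φ y)) (fun y => c (φ y)) := by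
  obtain ⟨F, w, h0, h1, h2⟩ := h
  exact ⟨F, w, h0, h1, fun y hy => h2 _ (hφ y hy)⟩

lemma kraft_of_empty {G X : Type*} {S : Set G} (hS : ∀ g, g ∉ S) (f : G → X) (c : G → ℝ) :
    Kraft S f c :=
  ⟨∅, fun _ => 0, fun _ => le_rfl, by simp, fun g hg => absurd hg (hS g)⟩

lemma size_small {M : ℕ} (hM : 2 ^ 10 ≤ M) : 64 * Nat.size M ≤ M := by
  have h1 : 10 < Nat.size M := Nat.lt_size.2 hM
  obtain ⟨n, hn⟩ : ∃ n, Nat.size M = n + 1 := ⟨Nat.size M - 1, by omega⟩
  have h2 : 2 ^ n ≤ M := Nat.lt_size.1 (by omega)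
  have h3 : ∀ n, 10 ≤ n → 64 * (n + 1) ≤ 2 ^ n := by
    intro n hn
    induction n, hn using Nat.le_induction with
    | base => norm_num
    | succ k hk ih => rw [pow_succ]; omega
  rw [hn]
  exact (h3 n (by omega)).trans h2

lemma lf_small {lf : ℕ} (h : 20 ≤ lf) : 240 * ((lf : ℝ) + 3) / 2 ^ lf ≤ 1 / 32 := by
  have h3 : ∀ n : ℕ, 20 ≤ n → 7680 * (n + 3) ≤ 2 ^ n := by
    intro n hn
    induction n, hn using Nat.le_induction with
    | base => norm_num
    | succ k hk ih => rw [pow_succ]; omega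
  have h4 : (7680 * ((lf : ℝ) + 3)) ≤ 2 ^ lf := by exact_mod_cast h3 lf h
  rw [div_le_div_iff₀ (by positivity) (by norm_num)]
  linarith

lemma sum_colm {M : ℕ} (Lam : Finset (G M)) (B : Finset ℕ) :
    ∑ b ∈ B, (colm Lam b).card ≤ Lam.card := by
  classical
  rw [← Finset.card_biUnion]
  · exact card_le_card (biUnion_subset.2 fun b _ => filter_subset _ _)
  · have key : ∀ b b' : ℕ, b < b' → ∀ k : G M, k ∈ colm Lam b → k ∈ colm Lam b' → False := by
      intro b b' hbb k hk hk'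
      have h1 := (mem_filter.1 hk).2.2
      have h2 := (mem_filter.1 hk').2.1
      have h3 : 8 ^ (b + 1) ≤ 8 ^ b' := Nat.pow_le_pow_right (by norm_num) hbb
      rw [pow_succ] at h3
      omega
    intro b _ b' _ hbb
    refine Finset.disjoint_left.2 fun k hk hk' => ?_
    rcases lt_or_gt_of_ne hbb with h | h
    · exact key b b' h k hk hk'
    · exact key b' b h k hk' hk

/-- few columns have many frequencies -/
lemma card_heavy {M : ℕ} (hM : 4 ≤ M) (Lam : Finset (G M)) (c : ℝ)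
    (hL : (Lam.card : ℝ) ≤ c * M * 8 ^ M) :
    ((((range M).filter (fun b => ¬ (colm Lam b).card ≤ 8 ^ (M - 4))).card : ℕ) : ℝ)
      ≤ 4096 * c * M := by
  classical
  set B := (range M).filter (fun b => ¬ (colm Lam b).card ≤ 8 ^ (M - 4)) with hB
  have h1 : B.card * 8 ^ (M - 4) ≤ Lam.card := by
    calc B.card * 8 ^ (M - 4) = ∑ b ∈ B, 8 ^ (M - 4) := by rw [sum_const, smul_eq_mul]
      _ ≤ ∑ b ∈ B, (colm Lam b).card := sum_le_sum fun b hb => by
          have := (mem_filter.1 hb).2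
          omega
      _ ≤ Lam.card := sum_colm Lam B
  have h2 : (B.card : ℝ) * 8 ^ (M - 4) ≤ c * M * 8 ^ M := by
    refine le_trans ?_ hL
    exact_mod_cast h1
  have h3 : (8 : ℝ) ^ M = 4096 * 8 ^ (M - 4) := by
    obtain ⟨n, rfl⟩ : ∃ n, M = n + 4 := ⟨M - 4, by omega⟩
    rw [Nat.add_sub_cancel, pow_add]
    norm_num
    ring
  have h4 : (0 : ℝ) < 8 ^ (M - 4) := by positivity
  rw [h3] at h2
  have h5 : (B.card : ℝ) * 8 ^ (M - 4) ≤ (4096 * c * M) * 8 ^ (M - 4) := by linarith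
  exact le_of_mul_le_mul_right h5 h4

open scoped Classical in
lemma card_notRg (M : ℕ) :
    ((((range M).filter (fun b => ¬ Rg M 0 b)).card : ℕ) : ℝ) ≤ 2 * Nat.size M := by
  classical
  have h1 : (range M).filter (fun b => ¬ Rg M 0 b) ⊆
      range (Nat.size M) ∪ Ico (M - Nat.size M) M := by
    intro b hb
    obtain ⟨h2, h3⟩ := mem_filter.1 hb
    have h4 := mem_range.1 h2
    rw [mem_union, mem_range, mem_Ico]
    by_contra hcon
    push Not at hcon
    apply h3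
    refine ⟨hcon.1, h4, Nat.zero_le _, ?_⟩
    by_contra h5
    have := hcon.2 (by omega)
    omega
  have h2 := (card_le_card h1).trans (card_union_le _ _)
  rw [card_range, Nat.card_Ico] at h2
  have h3 : ((range M).filter (fun b => ¬ Rg M 0 b)).card ≤ 2 * Nat.size M := by omega
  exact_mod_cast h3

/-! ### the process -/

/-- sign vectors of all columns -/
abbrev Ep (M : ℕ) := ℕ → Finset (Fin (8 ^ M))

/-- a state: active columns, factors, recorded signs -/
abbrev Stt (M : ℕ) := Finset ℕ × (ℕ → G M → ℝ) × Ep M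

section
variable {M : ℕ} (lf : ℕ) (tb : TB M) (wf : Ep M → Cf M)
  (PA : ∀ (_ : Stt M) (b : ℕ), Finset (Finset (Fin (8 ^ M)) × (Gr (b + 1) (M - b + 1) → ℝ)))

/-- the exceptional columns -/
def P1 (b : ℕ) (s : Stt M) (ε : Ep M) : Prop :=
  ¬ (Elg M 0 (JF lf) lf s.1 b ∧ (colm (wf ε).Lam b).card ≤ 8 ^ (M - 4))

/-- the active columns -/
def P2 (b : ℕ) (s : Stt M) (ε : Ep M) : Prop :=
  ∃ p ∈ PA s b, p.1 = ε b ∧ Adm 0 b (M - b) (JF lf) 0 (Psi s.2.1 b) p.2 ∧
    1 / 2 ^ 21 ≤ tst 0 b (M - b) (Psi s.2.1 b) (fun x => tb.T ε x - (wf ε).g x) p.2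

open scoped Classical in
/-- the coefficients of an active column -/
noncomputable def pf (b : ℕ) (s : Stt M) (ε : Ep M) :
    Finset (Fin (8 ^ M)) × (Gr (b + 1) (M - b + 1) → ℝ) :=
  if h : P2 lf tb wf PA b s ε then Classical.choose h else (∅, 0)

/-- record the signs -/
noncomputable def up1 (b : ℕ) (s : Stt M) (e : Finset (Fin (8 ^ M))) : Stt M :=
  (s.1, s.2.1, Function.update s.2.2 b e)

/-- add an active column -/
noncomputable def up2 (b : ℕ) (s : Stt M)
    (p : Finset (Fin (8 ^ M)) × (Gr (b + 1) (M - b + 1) → ℝ)) : Stt M :=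
  (insert b s.1, Function.update s.2.1 b (fun x => hh 0 b (M - b) p.2 x),
    Function.update s.2.2 b p.1)

open scoped Classical in
/-- one step -/
noncomputable def stp (b : ℕ) (s : Stt M) (ε : Ep M) : Stt M :=
  if P1 lf wf b s ε then up1 b s (ε b)
  else if P2 lf tb wf PA b s ε then up2 b s (pf lf tb wf PA b s ε) else up1 b s (ε b)

open scoped Classical in
/-- the cost of a step -/
noncomputable def cst (C0 : ℝ) (b : ℕ) (s : Stt M) (ε : Ep M) : ℝ :=
  1 + if P1 lf wf b s ε then (8 : ℝ) ^ M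
    else (1 + if P2 lf tb wf PA b s ε then C0 * 8 ^ M else 8 ^ M / 4)

/-- the invariant -/
structure Inv (b : ℕ) (s : Stt M) (ε : Ep M) : Prop where
  rs : RS M 0 0 (JF lf) lf 0 s.1 s.2.1
  lt : ∀ a ∈ s.1, a < b
  rec1 : ∀ b' < b, s.2.2 b' = ε b'
  rec2 : ∀ b', b ≤ b' → s.2.2 b' = ∅
  pot : (s.1.card : ℝ) * ((1 / (2 * CV 0)) * (1 / 2 ^ 21)) ≤
    ∑ a ∈ range b, ER (fun x => (tb.T ε x - (wf ε).g x) * (Psi s.2.1 a x * s.2.1 a x))

variable {lf tb wf PA}

lemma pf_spec {b : ℕ} {s : Stt M} {ε : Ep M} (h : P2 lf tb wf PA b s ε) :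
    pf lf tb wf PA b s ε ∈ PA s b ∧ (pf lf tb wf PA b s ε).1 = ε b ∧
      Adm 0 b (M - b) (JF lf) 0 (Psi s.2.1 b) (pf lf tb wf PA b s ε).2 ∧
      1 / 2 ^ 21 ≤ tst 0 b (M - b) (Psi s.2.1 b) (fun x => tb.T ε x - (wf ε).g x)
        (pf lf tb wf PA b s ε).2 := by
  have h1 : pf lf tb wf PA b s ε = Classical.choose h := by
    unfold pf
    rw [dif_pos h]
  rw [h1]
  exact Classical.choose_spec h

lemma Psi_update (h : ℕ → G M → ℝ) (f : G M → ℝ) {a b : ℕ} (hab : a ≤ b) (x : G M) :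
    Psi (Function.update h b f) a x = Psi h a x := by
  unfold Psi
  refine prod_congr rfl fun a' ha' => ?_
  have := mem_range.1 ha'
  rw [Function.update_of_ne (by omega)]

lemma inv_zero (ε : Ep M) : Inv lf tb wf 0 ((∅, fun _ _ => 0, fun _ => ∅) : Stt M) ε where
  rs :=
    { rng := fun a ha => absurd ha (notMem_empty a)
      alw := fun a ha => absurd ha (notMem_empty a)
      gap := fun a ha => absurd ha (notMem_empty a)
      off := fun _ _ _ => rfl
      adm := fun a ha => absurd ha (notMem_empty a) }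
  lt := fun a ha => absurd ha (notMem_empty a)
  rec1 := fun b' hb' => absurd hb' (Nat.not_lt_zero _)
  rec2 := fun _ _ => rfl
  pot := by simp

lemma inv_up1 {b : ℕ} {s : Stt M} {ε : Ep M} (hI : Inv lf tb wf b s ε) :
    Inv lf tb wf (b + 1) (up1 b s (ε b)) ε where
  rs := hI.rs
  lt := fun a ha => (hI.lt a ha).trans (Nat.lt_succ_self b)
  rec1 := by
    intro b' hb'
    show Function.update s.2.2 b (ε b) b' = ε b'
    rcases eq_or_ne b' b with rfl | h
    · rw [Function.update_self]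
    · rw [Function.update_of_ne h]
      exact hI.rec1 b' (by omega)
  rec2 := by
    intro b' hb'
    show Function.update s.2.2 b (ε b) b' = ∅
    rw [Function.update_of_ne (by omega)]
    exact hI.rec2 b' (by omega)
  pot := by
    show (s.1.card : ℝ) * ((1 / (2 * CV 0)) * (1 / 2 ^ 21)) ≤
      ∑ a ∈ range (b + 1), ER (fun x => (tb.T ε x - (wf ε).g x) * (Psi s.2.1 a x * s.2.1 a x))
    rw [sum_range_succ]
    have h1 : b ∉ s.1 := fun h => absurd (hI.lt b h) (lt_irrefl b)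
    have h2 : (fun x => (tb.T ε x - (wf ε).g x) * (Psi s.2.1 b x * s.2.1 b x)) = fun _ => 0 := by
      funext x
      rw [hI.rs.off b h1 x, mul_zero, mul_zero]
    rw [h2, ER_const, add_zero]
    exact hI.pot

lemma inv_up2 (hPair : StPair) (hAdd : StAdd) {b : ℕ} {s : Stt M} {ε : Ep M}
    (hI : Inv lf tb wf b s ε) (hE : Elg M 0 (JF lf) lf s.1 b)
    {p : Finset (Fin (8 ^ M)) × (Gr (b + 1) (M - b + 1) → ℝ)} (hp : p.1 = ε b)
    (hA : Adm 0 b (M - b) (JF lf) 0 (Psi s.2.1 b) p.2)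
    (hv : 1 / 2 ^ 21 ≤ tst 0 b (M - b) (Psi s.2.1 b) (fun x => tb.T ε x - (wf ε).g x) p.2) :
    Inv lf tb wf (b + 1) (up2 b s p) ε where
  rs := hAdd M 0 0 (JF lf) lf 0 s.1 s.2.1 b p.2 hI.rs hE (by unfold JF; omega) hA
  lt := by
    intro a ha
    rcases mem_insert.1 ha with rfl | h
    · exact Nat.lt_succ_self _
    · exact (hI.lt a h).trans (Nat.lt_succ_self b)
  rec1 := by
    intro b' hb'
    show Function.update s.2.2 b p.1 b' = ε b'
    rcases eq_or_ne b' b with rfl | h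
    · rw [Function.update_self, hp]
    · rw [Function.update_of_ne h]
      exact hI.rec1 b' (by omega)
  rec2 := by
    intro b' hb'
    show Function.update s.2.2 b p.1 b' = ∅
    rw [Function.update_of_ne (by omega)]
    exact hI.rec2 b' (by omega)
  pot := by
    show ((insert b s.1).card : ℝ) * ((1 / (2 * CV 0)) * (1 / 2 ^ 21)) ≤
      ∑ a ∈ range (b + 1), ER (fun x => (tb.T ε x - (wf ε).g x) *
        (Psi (Function.update s.2.1 b (fun x => hh 0 b (M - b) p.2 x)) a x *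
          Function.update s.2.1 b (fun x => hh 0 b (M - b) p.2 x) a x))
    have h1 : b ∉ s.1 := fun h => absurd (hI.lt b h) (lt_irrefl b)
    rw [sum_range_succ, card_insert_of_notMem h1, Function.update_self]
    have h2 : ∀ a ∈ range b, ER (fun x => (tb.T ε x - (wf ε).g x) *
        (Psi (Function.update s.2.1 b (fun x => hh 0 b (M - b) p.2 x)) a x *
          Function.update s.2.1 b (fun x => hh 0 b (M - b) p.2 x) a x)) =
        ER (fun x => (tb.T ε x - (wf ε).g x) * (Psi s.2.1 a x * s.2.1 a x)) := by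
      intro a ha
      have h3 := mem_range.1 ha
      congr 1
      funext x
      rw [Psi_update _ _ h3.le, Function.update_of_ne (by omega)]
    rw [sum_congr rfl h2]
    have h4 : ER (fun x => (tb.T ε x - (wf ε).g x) *
        (Psi (Function.update s.2.1 b (fun x => hh 0 b (M - b) p.2 x)) b x *
          hh 0 b (M - b) p.2 x)) =
        (1 / (2 * CV 0)) * tst 0 b (M - b) (Psi s.2.1 b)
          (fun x => tb.T ε x - (wf ε).g x) p.2 := by
      rw [← hPair]
      congr 1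
      funext x
      rw [Psi_update _ _ le_rfl]
    rw [h4]
    have h5 : (1 / (2 * CV 0)) * (1 / 2 ^ 21) ≤
        (1 / (2 * CV 0)) * tst 0 b (M - b) (Psi s.2.1 b)
          (fun x => tb.T ε x - (wf ε).g x) p.2 :=
      mul_le_mul_of_nonneg_left hv (by have := CV_pos 0; positivity)
    have h6 := hI.pot
    push_cast
    linarith

lemma inv_stp (hPair : StPair) (hAdd : StAdd) {b : ℕ} {s : Stt M} {ε : Ep M}
    (hI : Inv lf tb wf b s ε) : Inv lf tb wf (b + 1) (stp lf tb wf PA b s ε) ε := by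
  classical
  unfold stp
  split_ifs with h1 h2
  · exact inv_up1 hI
  · obtain ⟨_, h3, h4, h5⟩ := pf_spec h2
    have h6 : Elg M 0 (JF lf) lf s.1 b := by
      unfold P1 at h1
      push Not at h1
      exact h1.1
    exact inv_up2 hPair hAdd hI h6 h3 h4 h5
  · exact inv_up1 hI

/-- the code of one step -/
lemma stp_kraft {j0 : ℕ} {C0 : ℝ} {phi : G M → ℂ} (hTloc : StTloc)
    (hLg : Lg M 0) (hJok : Jok 0 (JF lf) lf)
    (PI : ∀ (_ : Stt M) (_ : ℕ), Finset (Finset (Fin (8 ^ M))))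
    (hPI : ∀ (s : Stt M) (b : ℕ), RS M 0 0 (JF lf) lf 0 s.1 s.2.1 →
      Elg M 0 (JF lf) lf s.1 b →
      ((PI s b).card : ℝ) ≤ 2 ^ ((8 : ℝ) ^ M / 4) ∧
      ∀ (w : Cf M) (T : G M → ℝ) (s' : Finset (Fin (8 ^ M))), Know j0 j0 phi w →
        (colm w.Lam b).card ≤ 8 ^ (M - 4) →
        (∀ x, loc 0 b (M - b) (cx (fun z => T z * Psi s.2.1 b z)) x = tb.t b s' x) →
        (∀ η, Adm 0 b (M - b) (JF lf) 0 (Psi s.2.1 b) η →
          tst 0 b (M - b) (Psi s.2.1 b) (fun x => T x - w.g x) η < 1 / 2 ^ 20) →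
        s' ∈ PI s b)
    (hPA : ∀ (s : Stt M) (b : ℕ), RS M 0 0 (JF lf) lf 0 s.1 s.2.1 →
      Elg M 0 (JF lf) lf s.1 b →
      ((PA s b).card : ℝ) ≤ 2 ^ (C0 * 8 ^ M) ∧
      ∀ (w : Cf M) (T : G M → ℝ) (s' : Finset (Fin (8 ^ M))), Know j0 j0 phi w →
        (colm w.Lam b).card ≤ 8 ^ M →
        (∀ x, loc 0 b (M - b) (cx (fun z => T z * Psi s.2.1 b z)) x = tb.t b s' x) →
        (∃ η, Adm 0 b (M - b) (JF lf) 0 (Psi s.2.1 b) η ∧
          1 / 2 ^ 20 ≤ tst 0 b (M - b) (Psi s.2.1 b) (fun x => T x - w.g x) η) →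
        ∃ p ∈ PA s b, p.1 = s' ∧ Adm 0 b (M - b) (JF lf) 0 (Psi s.2.1 b) p.2 ∧
          1 / 2 ^ 21 ≤ tst 0 b (M - b) (Psi s.2.1 b) (fun x => T x - w.g x) p.2)
    (S : Set (Ep M)) (hS : ∀ ε ∈ S, Know j0 j0 phi (wf ε)) (b : ℕ) (s : Stt M) :
    Kraft {ε | ε ∈ S ∧ Inv lf tb wf b s ε} (stp lf tb wf PA b s) (cst lf tb wf PA C0 b s) := by
  classical
  by_cases hRS : RS M 0 0 (JF lf) lf 0 s.1 s.2.1
  swap
  · exact kraft_of_empty (fun ε hε => hRS hε.2.rs) _ _
  have hlist : ∀ S' : Set (Ep M), Kraft S' (fun ε => up1 b s (ε b)) (fun _ => (8 : ℝ) ^ M) := by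
    intro S'
    have h1 : Kraft S' (fun ε : Ep M => ε b) (fun _ => (8 : ℝ) ^ M) := by
      refine Kraft.of_card univ (fun _ _ => mem_univ _) _ ?_
      rw [card_univ, Fintype.card_finset, Fintype.card_fin]
      have h2 : ((8 : ℝ) ^ M) = ((8 ^ M : ℕ) : ℝ) := by push_cast; rfl
      rw [h2, Real.rpow_natCast]
      push_cast
      exact le_rfl
    exact h1.map (up1 b s)
  have hE : ∀ ε, ¬ P1 lf wf b s ε →
      Elg M 0 (JF lf) lf s.1 b ∧ (colm (wf ε).Lam b).card ≤ 8 ^ (M - 4) := by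
    intro ε h
    unfold P1 at h
    push Not at h
    exact h
  have hcard : 8 ^ (M - 4) ≤ 8 ^ M := Nat.pow_le_pow_right (by norm_num) (Nat.sub_le _ _)
  refine Kraft.ite (P1 lf wf b s) ?_ ?_
  · refine (hlist _).mono (Set.Subset.refl _) (fun ε hε => ?_) (fun _ _ => le_rfl)
    have h1 : P1 lf wf b s ε := hε.2
    unfold stp
    rw [if_pos h1]
  · refine Kraft.ite (P2 lf tb wf PA b s) ?_ ?_
    · by_cases hEl : Elg M 0 (JF lf) lf s.1 b
      swap
      · exact kraft_of_empty (fun ε hε => hEl (hE ε hε.1.2).1) _ _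
      have h1 : Kraft {ε | ε ∈ {ε | ε ∈ {ε | ε ∈ S ∧ Inv lf tb wf b s ε} ∧ ¬ P1 lf wf b s ε} ∧
          P2 lf tb wf PA b s ε} (pf lf tb wf PA b s) (fun _ => C0 * 8 ^ M) :=
        Kraft.of_card (PA s b) (fun ε hε => (pf_spec hε.2).1) _ (hPA s b hRS hEl).1
      refine (h1.map (up2 b s)).mono (Set.Subset.refl _) (fun ε hε => ?_) (fun _ _ => le_rfl)
      have h2 : ¬ P1 lf wf b s ε := hε.1.2
      have h3 : P2 lf tb wf PA b s ε := hε.2
      unfold stp
      rw [if_neg h2, if_pos h3]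
    · by_cases hEl : Elg M 0 (JF lf) lf s.1 b
      swap
      · exact kraft_of_empty (fun ε hε => hEl (hE ε hε.1.2).1) _ _
      have h1 : Kraft {ε | ε ∈ {ε | ε ∈ {ε | ε ∈ S ∧ Inv lf tb wf b s ε} ∧ ¬ P1 lf wf b s ε} ∧
          ¬ P2 lf tb wf PA b s ε} (fun ε : Ep M => ε b) (fun _ => (8 : ℝ) ^ M / 4) := by
        refine Kraft.of_card (PI s b) (fun ε hε => ?_) _ (hPI s b hRS hEl).1
        have h2 : ¬ P1 lf wf b s ε := hε.1.2
        have h3 : ¬ P2 lf tb wf PA b s ε := hε.2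
        obtain ⟨_, hcol⟩ := hE ε h2
        have hK := hS ε hε.1.1.1
        have hT := hTloc M (JF lf) lf 0 s.1 s.2.1 b hRS hLg hJok hEl tb ε
        refine (hPI s b hRS hEl).2 (wf ε) (tb.T ε) (ε b) hK hcol hT (fun η hη => ?_)
        by_contra hcon
        push Not at hcon
        apply h3
        exact (hPA s b hRS hEl).2 (wf ε) (tb.T ε) (ε b) hK (hcol.trans hcard) hT
          ⟨η, hη, hcon⟩
      refine (h1.map (up1 b s)).mono (Set.Subset.refl _) (fun ε hε => ?_) (fun _ _ => le_rfl)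
      have h2 : ¬ P1 lf wf b s ε := hε.1.2
      have h3 : ¬ P2 lf tb wf PA b s ε := hε.2
      unfold stp
      rw [if_neg h2, if_neg h3]

end

/-- the constant in front of the number of active columns -/
noncomputable def Kc : ℝ := 4 * CV 0 * 2 ^ 21

lemma Kc_pos : 0 < Kc := by
  have := CV_pos 0
  unfold Kc
  positivity

lemma run (hPair : StPair) (hTele : StTele) (hAdd : StAdd) (hTloc : StTloc)
    {M lf j0 : ℕ} {C0 c : ℝ} (hM : 4 ≤ M) (hlf : 10 ≤ lf) (hC0 : 1 ≤ C0)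
    (tb : TB M) (phi : G M → ℂ)
    (hIn : ∀ (act : Finset ℕ) (h : ℕ → G M → ℝ) (b : ℕ),
      RS M 0 0 (JF lf) lf 0 act h → Elg M 0 (JF lf) lf act b →
      ∃ PP : Finset (Finset (Fin (8 ^ M))), (PP.card : ℝ) ≤ 2 ^ ((8 : ℝ) ^ M / 4) ∧
      ∀ (w : Cf M) (T : G M → ℝ) (s : Finset (Fin (8 ^ M))), Know j0 j0 phi w →
        (colm w.Lam b).card ≤ 8 ^ (M - 4) →
        (∀ x, loc 0 b (M - b) (cx (fun z => T z * Psi h b z)) x = tb.t b s x) →
        (∀ η, Adm 0 b (M - b) (JF lf) 0 (Psi h b) η →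
          tst 0 b (M - b) (Psi h b) (fun x => T x - w.g x) η < 1 / 2 ^ 20) →
        s ∈ PP)
    (hAct : ∀ (act : Finset ℕ) (h : ℕ → G M → ℝ) (b : ℕ),
      RS M 0 0 (JF lf) lf 0 act h → Elg M 0 (JF lf) lf act b →
      ∃ PP : Finset (Finset (Fin (8 ^ M)) × (Gr (b + 1) (M - b + 1) → ℝ)),
      (PP.card : ℝ) ≤ 2 ^ (C0 * 8 ^ M) ∧
      ∀ (w : Cf M) (T : G M → ℝ) (s : Finset (Fin (8 ^ M))), Know j0 j0 phi w →
        (colm w.Lam b).card ≤ 8 ^ M →
        (∀ x, loc 0 b (M - b) (cx (fun z => T z * Psi h b z)) x = tb.t b s x) →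
        (∃ η, Adm 0 b (M - b) (JF lf) 0 (Psi h b) η ∧
          1 / 2 ^ 20 ≤ tst 0 b (M - b) (Psi h b) (fun x => T x - w.g x) η) →
        ∃ p ∈ PP, p.1 = s ∧ Adm 0 b (M - b) (JF lf) 0 (Psi h b) p.2 ∧
          1 / 2 ^ 21 ≤ tst 0 b (M - b) (Psi h b) (fun x => T x - w.g x) p.2)
    (wf : Ep M → Cf M) (S : Set (Ep M))
    (hS : ∀ ε ∈ S, (∀ b, M ≤ b → ε b = ∅) ∧ Know j0 j0 phi (wf ε) ∧
      ((wf ε).Lam.card : ℝ) ≤ c * M * 8 ^ M ∧ ∀ x, |tb.T ε x - (wf ε).g x| ≤ c * M) :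
    Kraft S (fun ε => ε) (fun _ => (M : ℝ) * (2 + 8 ^ M / 4) +
      (2 * Nat.size M + 240 * ((lf : ℝ) + 3) * M / 2 ^ lf + 4096 * c * M +
        Kc * c * M * JF lf) * 8 ^ M + Kc * c * M * (C0 * 8 ^ M)) := by
  classical
  have hLg : Lg M 0 := by
    unfold Lg
    have h1 : 3 ≤ Nat.size M := by
      have : 2 < Nat.size M := Nat.lt_size.2 (by omega)
      omega
    calc 100 * (0 + 2) ^ 2 ≤ 8 ^ 3 := by norm_num
      _ ≤ 8 ^ Nat.size M := Nat.pow_le_pow_right (by norm_num) h1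
  have hJok : Jok 0 (JF lf) lf := by
    refine ⟨?_, hlf, by unfold JF; omega⟩
    calc 1000 * (0 + 2) ^ 2 ≤ 8 ^ 4 := by norm_num
      _ ≤ 8 ^ JF lf := Nat.pow_le_pow_right (by norm_num) (by unfold JF; omega)
  have hIn' : ∀ (s : Stt M) (b : ℕ), ∃ PP : Finset (Finset (Fin (8 ^ M))),
      RS M 0 0 (JF lf) lf 0 s.1 s.2.1 → Elg M 0 (JF lf) lf s.1 b →
      ((PP.card : ℝ) ≤ 2 ^ ((8 : ℝ) ^ M / 4) ∧
      ∀ (w : Cf M) (T : G M → ℝ) (s' : Finset (Fin (8 ^ M))), Know j0 j0 phi w →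
        (colm w.Lam b).card ≤ 8 ^ (M - 4) →
        (∀ x, loc 0 b (M - b) (cx (fun z => T z * Psi s.2.1 b z)) x = tb.t b s' x) →
        (∀ η, Adm 0 b (M - b) (JF lf) 0 (Psi s.2.1 b) η →
          tst 0 b (M - b) (Psi s.2.1 b) (fun x => T x - w.g x) η < 1 / 2 ^ 20) →
        s' ∈ PP) := by
    intro s b
    by_cases h1 : RS M 0 0 (JF lf) lf 0 s.1 s.2.1
    · by_cases h2 : Elg M 0 (JF lf) lf s.1 b
      · obtain ⟨PP, h3⟩ := hIn s.1 s.2.1 b h1 h2
        exact ⟨PP, fun _ _ => h3⟩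
      · exact ⟨∅, fun _ h => absurd h h2⟩
    · exact ⟨∅, fun h => absurd h h1⟩
  have hAct' : ∀ (s : Stt M) (b : ℕ),
      ∃ PP : Finset (Finset (Fin (8 ^ M)) × (Gr (b + 1) (M - b + 1) → ℝ)),
      RS M 0 0 (JF lf) lf 0 s.1 s.2.1 → Elg M 0 (JF lf) lf s.1 b →
      ((PP.card : ℝ) ≤ 2 ^ (C0 * 8 ^ M) ∧
      ∀ (w : Cf M) (T : G M → ℝ) (s' : Finset (Fin (8 ^ M))), Know j0 j0 phi w →
        (colm w.Lam b).card ≤ 8 ^ M →
        (∀ x, loc 0 b (M - b) (cx (fun z => T z * Psi s.2.1 b z)) x = tb.t b s' x) →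
        (∃ η, Adm 0 b (M - b) (JF lf) 0 (Psi s.2.1 b) η ∧
          1 / 2 ^ 20 ≤ tst 0 b (M - b) (Psi s.2.1 b) (fun x => T x - w.g x) η) →
        ∃ p ∈ PP, p.1 = s' ∧ Adm 0 b (M - b) (JF lf) 0 (Psi s.2.1 b) p.2 ∧
          1 / 2 ^ 21 ≤ tst 0 b (M - b) (Psi s.2.1 b) (fun x => T x - w.g x) p.2) := by
    intro s b
    by_cases h1 : RS M 0 0 (JF lf) lf 0 s.1 s.2.1
    · by_cases h2 : Elg M 0 (JF lf) lf s.1 b
      · obtain ⟨PP, h3⟩ := hAct s.1 s.2.1 b h1 h2
        exact ⟨PP, fun _ _ => h3⟩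
      · exact ⟨∅, fun _ h => absurd h h2⟩
    · exact ⟨∅, fun h => absurd h h1⟩
  choose PI hPI using hIn'
  choose PA hPA using hAct'
  obtain ⟨st, hst0, hst1, hinv, hkr⟩ := Kraft.process S (Inv lf tb wf)
    ((∅, fun _ _ => 0, fun _ => ∅) : Stt M) (fun ε _ => inv_zero ε) (stp lf tb wf PA)
    (cst lf tb wf PA C0) M
    (fun b _ s => stp_kraft hTloc hLg hJok PI hPI hPA S (fun ε hε => (hS ε hε).2.1) b s)
    (fun b _ s ε _ h => inv_stp hPair hAdd h)
  have hfin := (hkr M le_rfl).map (fun s : Stt M => s.2.2)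
  refine hfin.mono (Set.Subset.refl _) (fun ε hε => ?_) (fun ε hε => ?_)
  · have hI := hinv M le_rfl ε hε
    funext b
    rcases lt_or_ge b M with h | h
    · exact (hI.rec1 b h).symm
    · rw [hI.rec2 b h]
      exact (hS ε hε).1 b h
  · obtain ⟨_, hK, hL, hv⟩ := hS ε hε
    have h8 : (0 : ℝ) < 8 ^ M := by positivity
    have hmono1 : ∀ b < M, (st b ε).1 ⊆ (st (b + 1) ε).1 := by
      intro b hb
      rw [hst1 b hb ε]
      unfold stp
      split_ifs
      · exact Finset.Subset.refl _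
      · exact subset_insert _ _
      · exact Finset.Subset.refl _
    have hmono : ∀ n b, b + n ≤ M → (st b ε).1 ⊆ (st (b + n) ε).1 := by
      intro n
      induction n with
      | zero => intro b _; exact Finset.Subset.refl _
      | succ n ih =>
        intro b hb
        exact (ih b (by omega)).trans (hmono1 (b + n) (by omega))
    have hsub : ∀ b ≤ M, (st b ε).1 ⊆ (st M ε).1 := by
      intro b hb
      have := hmono (M - b) b (by omega)
      rwa [Nat.add_sub_cancel' hb] at this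
    set act := (st M ε).1 with hact
    set B1 := (range M).filter (fun b => ¬ Rg M 0 b) with hB1
    set B2 := badCols lf M with hB2
    set B3 := (range M).filter (fun b => ¬ (colm (wf ε).Lam b).card ≤ 8 ^ (M - 4)) with hB3
    set B4 := act.biUnion (fun a => Ico a (a + JF lf)) with hB4
    set B := B1 ∪ B2 ∪ B3 ∪ B4 with hB
    have hP1 : ∀ b < M, P1 lf wf b (st b ε) ε → b ∈ B := by
      intro b hb h
      by_contra hcon
      rw [hB, mem_union, mem_union, mem_union] at hcon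
      push Not at hcon
      obtain ⟨⟨⟨h1, h2⟩, h3⟩, h4⟩ := hcon
      have hr := mem_range.2 hb
      have h5 : Rg M 0 b := by
        by_contra h6
        exact h1 (mem_filter.2 ⟨hr, h6⟩)
      have h6 : (colm (wf ε).Lam b).card ≤ 8 ^ (M - 4) := by
        by_contra h7
        exact h3 (mem_filter.2 ⟨hr, h7⟩)
      refine h ⟨⟨h5, allowed_of_not_mem lf M b hb h2, fun a ha => ?_⟩, h6⟩
      by_contra h7
      apply h4
      rw [hB4, mem_biUnion]
      refine ⟨a, hsub b hb.le ha, mem_Ico.2 ⟨?_, by omega⟩⟩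
      exact ((hinv b hb.le ε hε).lt a ha).le
    have hP2 : ∀ b < M, ¬ P1 lf wf b (st b ε) ε → P2 lf tb wf PA b (st b ε) ε → b ∈ act := by
      intro b hb h1 h2
      have h3 : b ∈ (st (b + 1) ε).1 := by
        rw [hst1 b hb ε]
        unfold stp
        rw [if_neg h1, if_pos h2]
        exact mem_insert_self _ _
      exact hsub (b + 1) (by omega) h3
    have hcost : ∀ b ∈ range M, cst lf tb wf PA C0 b (st b ε) ε ≤
        (2 + 8 ^ M / 4) + (if b ∈ B then (8 : ℝ) ^ M else 0) +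
          (if b ∈ act then C0 * 8 ^ M else 0) := by
      intro b hb
      have hb' := mem_range.1 hb
      have hx : (0 : ℝ) ≤ if b ∈ B then (8 : ℝ) ^ M else 0 := by
        split_ifs
        · exact h8.le
        · exact le_rfl
      have hy : (0 : ℝ) ≤ if b ∈ act then C0 * (8 : ℝ) ^ M else 0 := by
        split_ifs
        · positivity
        · exact le_rfl
      unfold cst
      by_cases h1 : P1 lf wf b (st b ε) ε
      · rw [if_pos h1, if_pos (hP1 b hb' h1)]
        linarith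
      · rw [if_neg h1]
        by_cases h2 : P2 lf tb wf PA b (st b ε) ε
        · rw [if_pos h2, if_pos (hP2 b hb' h1 h2)]
          linarith
        · rw [if_neg h2]
          linarith
    have hsum : ∑ b ∈ range M, cst lf tb wf PA C0 b (st b ε) ε ≤
        (M : ℝ) * (2 + 8 ^ M / 4) + (B.card : ℝ) * 8 ^ M + (act.card : ℝ) * (C0 * 8 ^ M) := by
      refine (sum_le_sum hcost).trans ?_
      rw [sum_add_distrib, sum_add_distrib, sum_const, card_range, nsmul_eq_mul]
      have hx : ∑ b ∈ range M, (if b ∈ B then (8 : ℝ) ^ M else 0) ≤ (B.card : ℝ) * 8 ^ M := by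
        rw [← sum_filter, sum_const, nsmul_eq_mul]
        apply mul_le_mul_of_nonneg_right _ h8.le
        exact_mod_cast card_le_card (fun b hb => (mem_filter.1 hb).2)
      have hy : ∑ b ∈ range M, (if b ∈ act then C0 * (8 : ℝ) ^ M else 0) ≤
          (act.card : ℝ) * (C0 * 8 ^ M) := by
        rw [← sum_filter, sum_const, nsmul_eq_mul]
        apply mul_le_mul_of_nonneg_right _ (by positivity)
        exact_mod_cast card_le_card (fun b hb => (mem_filter.1 hb).2)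
      linarith
    -- the number of active columns
    have hI := hinv M le_rfl ε hε
    have hactc : (act.card : ℝ) ≤ Kc * c * M := by
      have h1 := hI.pot
      have h2 := hTele M 0 0 (JF lf) lf 0 (st M ε).1 (st M ε).2.1 hI.rs hLg hJok
        (fun x => tb.T ε x - (wf ε).g x) (c * M) hv M
      have h3 := h1.trans h2
      have hCV := CV_pos 0
      have h4 : (act.card : ℝ) * ((1 / (2 * CV 0)) * (1 / 2 ^ 21)) * (2 * CV 0 * 2 ^ 21) =
          act.card := by
        field_simp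
      have h5 := mul_le_mul_of_nonneg_right h3 (show 0 ≤ 2 * CV 0 * 2 ^ 21 by positivity)
      rw [h4] at h5
      refine h5.trans (le_of_eq ?_)
      unfold Kc
      ring
    have hBc : (B.card : ℝ) ≤ 2 * Nat.size M + 240 * ((lf : ℝ) + 3) * M / 2 ^ lf +
        4096 * c * M + Kc * c * M * JF lf := by
      have h1 : (B.card : ℝ) ≤ B1.card + B2.card + B3.card + B4.card := by
        have h2 : B.card ≤ B1.card + B2.card + B3.card + B4.card := by
          rw [hB]
          have e1 := card_union_le (B1 ∪ B2 ∪ B3) B4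
          have e2 := card_union_le (B1 ∪ B2) B3
          have e3 := card_union_le B1 B2
          omega
        exact_mod_cast h2
      have h2 : (B1.card : ℝ) ≤ 2 * Nat.size M := card_notRg M
      have h3 : (B2.card : ℝ) ≤ 240 * ((lf : ℝ) + 3) * M / 2 ^ lf := card_badCols lf M
      have h4 : (B3.card : ℝ) ≤ 4096 * c * M := card_heavy hM (wf ε).Lam c hL
      have h5 : (B4.card : ℝ) ≤ Kc * c * M * JF lf := by
        have h6 : B4.card ≤ act.card * JF lf := by
          rw [hB4]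
          refine card_biUnion_le.trans ?_
          rw [sum_congr rfl (fun a _ => show (Ico a (a + JF lf)).card = JF lf by
            rw [Nat.card_Ico, Nat.add_sub_cancel_left]), sum_const, smul_eq_mul]
        calc (B4.card : ℝ) ≤ (act.card : ℝ) * JF lf := by exact_mod_cast h6
          _ ≤ _ := mul_le_mul_of_nonneg_right hactc (Nat.cast_nonneg _)
      linarith
    refine hsum.trans ?_
    have h1 := mul_le_mul_of_nonneg_right hBc h8.le
    have h2 := mul_le_mul_of_nonneg_right hactc (show 0 ≤ C0 * (8 : ℝ) ^ M by positivity)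
    linarith

/-- the final count -/
theorem final (hComp : StComp) (hIn : StFinIn) (hAct : StFinAct) (hTloc : StTloc)
    (hTele : StTele) (hPair : StPair) (hAdd : StAdd) : StFinal := by
  classical
  intro A hA
  obtain ⟨j1, hj1⟩ := hComp A (1 / 16) hA (by norm_num)
  obtain ⟨j2, hj2⟩ := hIn
  obtain ⟨j3, hj3⟩ := hAct
  set j0 := max j1 (max j2 j3) with hj0
  obtain ⟨Ma, hMa⟩ := hj1 j0 (le_max_left _ _)
  obtain ⟨l1, hl1⟩ := hj2 j0 ((le_max_left _ _).trans (le_max_right _ _))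
  obtain ⟨l2, hl2⟩ := hj3 j0 ((le_max_right _ _).trans (le_max_right _ _))
  set lf := max 20 (max l1 l2) with hlf
  obtain ⟨Mb, hMb⟩ := hl1 lf ((le_max_left _ _).trans (le_max_right _ _))
  obtain ⟨Mc, hMc⟩ := hl2 lf ((le_max_right _ _).trans (le_max_right _ _))
  have hlf20 : 20 ≤ lf := le_max_left _ _
  set C0 : ℝ := 1000 * ((j0 : ℝ) + 1) with hC0
  have hC0' : 1 ≤ C0 := by
    have : (0 : ℝ) ≤ j0 := Nat.cast_nonneg _
    rw [hC0]
    linarith
  set D : ℝ := Kc * ((JF lf : ℕ) + C0) + 4096 with hD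
  have hKc := Kc_pos
  have hD0 : 0 < D := by
    have : (0 : ℝ) ≤ (JF lf : ℕ) := Nat.cast_nonneg _
    rw [hD]
    positivity
  refine ⟨1 / (32 * D), by positivity, max (2 ^ 10) (max Ma (max Mb Mc)), fun M hM tb S hS => ?_⟩
  set c : ℝ := 1 / (32 * D) with hc
  have hM10 : 2 ^ 10 ≤ M := (le_max_left _ _).trans hM
  have hMa' : Ma ≤ M := (le_max_left _ _).trans ((le_max_right _ _).trans hM)
  have hMb' : Mb ≤ M := (le_max_left _ _).trans
    ((le_max_right _ _).trans ((le_max_right _ _).trans hM))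
  have hMc' : Mc ≤ M := (le_max_right _ _).trans
    ((le_max_right _ _).trans ((le_max_right _ _).trans hM))
  have hc0 : 0 < c := by rw [hc]; positivity
  -- choose the configurations
  have hw : ∀ ε : Ep M, ∃ w : Cf M, ε ∈ S → ((w.Lam.card : ℝ) ≤ c * M * 8 ^ M ∧
      (∀ x, |w.g x| ≤ A * M) ∧ ∀ x, |tb.T ε x - w.g x| ≤ c * M) := by
    intro ε
    by_cases h : ε ∈ S
    · obtain ⟨_, w, hw⟩ := hS ε h
      exact ⟨w, fun _ => hw⟩
    · exact ⟨⟨fun _ => 0, univ, fun k hk => absurd (mem_univ k) hk⟩, fun h' => absurd h' h⟩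
  choose wf hwf using hw
  obtain ⟨psi, hpsi, hknow⟩ := hMa M hMa' (wf '' (S : Set (Ep M))) (by
    rintro w ⟨ε, hε, rfl⟩
    exact (hwf ε hε).2.1)
  have hk1 : Kraft (S : Set (Ep M)) (fun ε => psi (wf ε)) (fun _ => 1 / 16 * M * 8 ^ M) :=
    kraft_comp wf _ (fun ε hε => Set.mem_image_of_mem _ hε) hpsi
  have hk2 := hk1.chain' (fun _ ε => ε) (fun _ _ => (M : ℝ) * (2 + 8 ^ M / 4) +
      (2 * Nat.size M + 240 * ((lf : ℝ) + 3) * M / 2 ^ lf + 4096 * c * M +
        Kc * c * M * JF lf) * 8 ^ M + Kc * c * M * (C0 * 8 ^ M)) (fun phi => by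
    refine run hPair hTele hAdd hTloc (by omega) (by omega) hC0' tb phi
      (fun act h b h1 h2 => hMb M hMb' tb act h b phi h1 h2)
      (fun act h b h1 h2 => hMc M hMc' tb act h b phi h1 h2) wf _ (fun ε hε => ?_)
    obtain ⟨hεS, hεp⟩ := hε
    obtain ⟨h1, h2, h3⟩ := hwf ε hεS
    refine ⟨fun b hb => (hS ε hεS).1 b (Or.inr hb), ?_, h1, h3⟩
    have h4 := hknow (wf ε) (Set.mem_image_of_mem _ hεS)
    rwa [hεp] at h4)
  obtain ⟨F, hF1, hF2⟩ := hk2.card_le ((M : ℝ) * 8 ^ M / 2) (fun ε _ => by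
    have hMr : (2 : ℝ) ^ 10 ≤ M := by exact_mod_cast hM10
    have hM0 : (0 : ℝ) < M := by linarith [show (0 : ℝ) < 2 ^ 10 by norm_num]
    have h8 : (64 : ℝ) ≤ 8 ^ M := by
      calc (64 : ℝ) = 8 ^ 2 := by norm_num
        _ ≤ 8 ^ M := pow_le_pow_right₀ (by norm_num) (by omega)
    have h80 : (0 : ℝ) < 8 ^ M := by positivity
    have e1 : (2 : ℝ) * Nat.size M ≤ M / 32 := by
      have : (64 : ℝ) * Nat.size M ≤ M := by exact_mod_cast size_small hM10
      linarith
    have e2 : 240 * ((lf : ℝ) + 3) * M / 2 ^ lf ≤ M / 32 := by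
      have h1 := mul_le_mul_of_nonneg_right (lf_small hlf20) hM0.le
      calc 240 * ((lf : ℝ) + 3) * M / 2 ^ lf = 240 * ((lf : ℝ) + 3) / 2 ^ lf * M := by ring
        _ ≤ 1 / 32 * M := h1
        _ = M / 32 := by ring
    have e3 : 4096 * c * M + Kc * c * M * (JF lf : ℕ) + Kc * c * M * C0 = M / 32 := by
      have h1 : c * D = 1 / 32 := by
        rw [hc]
        field_simp
      calc 4096 * c * M + Kc * c * M * (JF lf : ℕ) + Kc * c * M * C0 = (c * D) * M := by
            rw [hD]; ring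
        _ = M / 32 := by rw [h1]; ring
    have e4 : (M : ℝ) * 2 ≤ M / 32 * 8 ^ M := by
      calc (M : ℝ) * 2 = M / 32 * 64 := by ring
        _ ≤ M / 32 * 8 ^ M := mul_le_mul_of_nonneg_left h8 (by positivity)
    have e5 : (2 * Nat.size M + 240 * ((lf : ℝ) + 3) * M / 2 ^ lf + 4096 * c * M +
        Kc * c * M * (JF lf : ℕ)) * 8 ^ M + Kc * c * M * (C0 * 8 ^ M) ≤ (3 * M / 32) * 8 ^ M := by
      have h1 : (2 * Nat.size M + 240 * ((lf : ℝ) + 3) * M / 2 ^ lf + 4096 * c * M +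
        Kc * c * M * (JF lf : ℕ)) + Kc * c * M * C0 ≤ 3 * M / 32 := by linarith
      calc _ = ((2 * Nat.size M + 240 * ((lf : ℝ) + 3) * M / 2 ^ lf + 4096 * c * M +
        Kc * c * M * (JF lf : ℕ)) + Kc * c * M * C0) * 8 ^ M := by ring
        _ ≤ _ := mul_le_mul_of_nonneg_right h1 h80.le
    nlinarith [e4, e5, mul_pos hM0 h80])
  have hSF : S.card ≤ F.card := card_le_card (fun ε hε => hF1 ε hε)
  calc (S.card : ℝ) ≤ F.card := by exact_mod_cast hSF
    _ ≤ _ := hF2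

end Pool.Agent.H69.CP
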